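import Mathlib
import Pool.Agent.R171.NC.Poset

/-!
# `NC(P)` is not rank-symmetric if no side of `Conv(P)` is blank
-/

namespace Pool.Agent.Results.MP_f3bbeb_co.NotRankSymmetric

/-- The plane. -/
abbrev Plane := ℝ × ℝ

/-- Twice the signed area of the triangle `a b c`; it is positive iff `a, b, c` are in
counterclockwise order. -/
def area2 (a b c : Plane) : ℝ := (b.1 - a.1) * (c.2 - a.2) - (b.2 - a.2) * (c.1 - a.1)

/-- `P` is a hull configuration, not contained in a line, whose convex hull is the convex polygon
with the vertices `v 0, …, v (k - 1)` in counterclockwise order (and `v k = v 0`), and no side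
`[v i, v (i + 1)]` of it is blank. -/
structure HullNoBlank (k : ℕ) (v : ℕ → Plane) (P : Finset Plane) : Prop where
  /-- the polygon has at least three vertices -/
  three_le : 3 ≤ k
  /-- the polygon is closed -/
  closed : v k = v 0
  /-- `v 0, …, v (k - 1)` are the vertices of a convex polygon, in counterclockwise order -/
  ccw : ∀ i j l, i < j → j < l → l < k → 0 < area2 (v i) (v j) (v l)
  /-- the vertices belong to `P` -/
  vertex_mem : ∀ i < k, v i ∈ P
  /-- all points of `P` lie on the boundary of the polygon -/
  on_boundary : ∀ p ∈ P, ∃ i < k, p ∈ segment ℝ (v i) (v (i + 1))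
  /-- every side contains a point of `P` other than its endpoints -/
  no_blank : ∀ i < k, ∃ p ∈ P, p ∈ openSegment ℝ (v i) (v (i + 1))

/-- The block of `u` in the partition `r` of `P`, as a set of points of the plane. -/
def block {P : Finset Plane} (r : Setoid P) (u : P) : Set Plane := {x | ∃ h : x ∈ P, r u ⟨x, h⟩}

/-- A set partition of `P` is noncrossing if distinct blocks have disjoint convex hulls. -/
def IsNoncrossing {P : Finset Plane} (r : Setoid P) : Prop :=
  ∀ u w : P, ¬ r u w → Disjoint (convexHull ℝ (block r u)) (convexHull ℝ (block r w))

/-- The poset `NC(P)` of the noncrossing partitions of `P`, ordered by refinement (the order of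
`Setoid`: `r ≤ s` iff `r x y` implies `s x y`, so finer partitions are smaller). -/
abbrev NC (P : Finset Plane) := {r : Setoid P // IsNoncrossing r}

/-- A poset is graded of rank `N` if every maximal chain has `N + 1` elements. -/
def GradedOfRank (α : Type*) [PartialOrder α] (N : ℕ) : Prop :=
  ∀ c : Set α, IsMaxChain (· ≤ ·) c → c.ncard = N + 1

/-- The number of elements of rank `i` (the rank of `x` is the length of the longest chain with
greatest element `x`, which is `Order.height x`). -/
noncomputable def rankNumber (α : Type*) [PartialOrder α] (i : ℕ) : ℕ :=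
  {x : α | Order.height x = i}.ncard

/-- A poset is rank-symmetric if it is graded of some rank `N` and has as many elements of rank
`i` as of rank `N - i`, for all `i ≤ N`. -/
def RankSymmetric (α : Type*) [PartialOrder α] : Prop :=
  ∃ N, GradedOfRank α N ∧ ∀ i ≤ N, rankNumber α i = rankNumber α (N - i)

/-- If no side of `Conv(P)` is blank, then `NC(P)` is not rank-symmetric. -/
theorem result (k : ℕ) (v : ℕ → Plane) (P : Finset Plane) (h : HullNoBlank k v P) :
    ¬ RankSymmetric (NC P) := by
  have H : Pool.Agent.R171.NC.HullData k v P :=
    ⟨⟨h.three_le, h.closed, h.ccw⟩, h.vertex_mem, h.on_boundary, h.no_blank⟩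
  exact Pool.Agent.R171.NC.not_symm H

end Pool.Agent.Results.MP_f3bbeb_co.NotRankSymmetric
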